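import Pool.Agent.Helper89.MS.Sheet

open Finset

namespace MS.H76

theorem mem_lay {n0 a : ℕ} {Z : Finset (Finset ℕ)} {S : Finset ℕ} :
    S ∈ lay n0 a Z ↔ ∃ B z, B ⊆ range n0 ∧ #B = a ∧ z ∈ Z ∧ S = B ∪ z := by
  simp only [lay, mem_image, mem_product, mem_powersetCard, Prod.exists]
  constructor
  · rintro ⟨B, z, ⟨⟨h1, h2⟩, h3⟩, rfl⟩
    exact ⟨B, z, h1, h2, h3, rfl⟩
  · rintro ⟨B, z, h1, h2, h3, rfl⟩
    exact ⟨B, z, ⟨⟨h1, h2⟩, h3⟩, rfl⟩

theorem memU {L m b : ℕ} {F : Finset (Finset ℕ)} {y : Finset ℕ} :
    y ∈ Ulev L m F b ↔ y ⊆ Ico (L + 1) m ∧ ∃ A, A ⊆ range L ∧ #A = b ∧ A ∪ y ∈ F := by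
  simp [Ulev]

theorem memV {L m b : ℕ} {F : Finset (Finset ℕ)} {y : Finset ℕ} :
    y ∈ Vlev L m F b ↔ y ⊆ Ico (L + 1) m ∧
      ∃ A, A ⊆ range L ∧ #A + 1 = b ∧ insert L (A ∪ y) ∈ F := by
  simp [Vlev]

theorem wt_union_le {v : ℕ → ℝ} (hv : ∀ x, 0 ≤ v x) (A B : Finset (Finset ℕ)) :
    wt v (A ∪ B) ≤ wt v A + wt v B := by
  have h := Finset.sum_union_inter (s₁ := A) (s₂ := B) (f := fun S : Finset ℕ => v #S)
  have h2 : 0 ≤ ∑ S ∈ A ∩ B, v #S := Finset.sum_nonneg fun S _ => hv _
  simp only [wt]
  linarith

theorem B8 (hUV : UVStm) (hLAY : LAYStm) : B8Stm := by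
  intro t m L a v F ht hv hG hLm hS ha1 haL h2a hVb
  obtain ⟨u1, u2, u3, u4, u5, -, -⟩ := hUV t m L v F hG hLm hS
  -- the first half
  have hVU : Vlev L m F a ⊆ UU L m F a := by
    intro y hy
    have hyU := u3 a haL hy
    refine mem_filter.2 ⟨hyU, fun hc => ?_⟩
    have hyI := (memU.1 hyU).1
    have f1 := u1 a _ hc (range a) (range_subset_range.2 haL) (card_range a)
    have f2 := u2 a y hy (Ico (L + 1 - a) L)
      (fun x hx => mem_range.2 (mem_Ico.1 hx).2) (by rw [Nat.card_Ico]; omega)
    have h3 := hG.ti.2 _ f1 _ f2
    have hsub : (range a ∪ (Ico (L + 1) m \ y)) ∩ insert L (Ico (L + 1 - a) L ∪ y) ⊆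
        Ico (L + 1 - a) a := by
      intro x hx
      simp only [mem_inter, mem_union, mem_range, mem_sdiff, mem_insert, mem_Ico] at hx ⊢
      by_cases hxy : x ∈ y
      · have h4 := (mem_Ico.1 (hyI hxy)).1
        simp only [hxy, not_true_eq_false, and_false, or_false] at hx
        omega
      · simp only [hxy, not_false_eq_true, and_true, or_false] at hx
        omega
    have h5 := card_le_card hsub
    rw [Nat.card_Ico] at h5
    omega
  refine ⟨hVU, ?_⟩
  -- every set of F with trace of size b ≠ a, b ≥ 1
  have key : ∀ z ∈ Ulev L m F a, ∀ C ∈ F, #(C ∩ range (L + 1)) ≠ a →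
      t ≤ (a + #(C ∩ range (L + 1)) - (L + 1)) + #(z ∩ (C \ range (L + 1))) := by
    intro z hz C hC hb
    have hzI := (memU.1 hz).1
    have f1 := u1 a _ hz (range a) (range_subset_range.2 haL) (card_range a)
    have hCm := hG.ti.1 C hC
    have hzI' : C \ range (L + 1) ⊆ Ico (L + 1) m := by
      intro x hx
      rw [mem_sdiff, mem_range] at hx
      exact mem_Ico.2 ⟨by omega, mem_range.1 (hCm hx.1)⟩
    rcases Nat.eq_zero_or_pos #(C ∩ range (L + 1)) with h0 | h0
    · have h1 := hG.ti.2 _ f1 _ hC
      have hE : C ∩ range (L + 1) = ∅ := card_eq_zero.1 h0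
      have hsub : (range a ∪ z) ∩ C ⊆ z ∩ (C \ range (L + 1)) := by
        intro x hx
        have hxC := (mem_inter.1 hx).2
        have hxn : x ∉ range (L + 1) := by
          intro h
          have : x ∈ C ∩ range (L + 1) := mem_inter.2 ⟨hxC, h⟩
          rw [hE] at this
          exact absurd this (notMem_empty x)
        rcases mem_union.1 (mem_inter.1 hx).1 with h | h
        · exfalso
          rw [mem_range] at h hxn
          omega
        · exact mem_inter.2 ⟨h, mem_sdiff.2 ⟨hxC, hxn⟩⟩
      have := card_le_card hsub
      omega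
    · -- the trace above `L` is in `V_b`
      have hzV : C \ range (L + 1) ∈ Vlev L m F #(C ∩ range (L + 1)) := by
        by_cases hL : L ∈ C
        · refine memV.2 ⟨hzI', C ∩ range L, inter_subset_right, ?_, ?_⟩
          · have : C ∩ range (L + 1) = insert L (C ∩ range L) := by
              ext x
              simp only [mem_inter, mem_range, mem_insert]
              constructor
              · rintro ⟨h1, h2⟩
                by_cases hx : x = L
                · exact Or.inl hx
                · exact Or.inr ⟨h1, by omega⟩
              · rintro (rfl | ⟨h1, h2⟩)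
                · exact ⟨hL, by omega⟩
                · exact ⟨h1, by omega⟩
            rw [this, card_insert_of_notMem (by simp)]
          · have : insert L (C ∩ range L ∪ C \ range (L + 1)) = C := by
              ext x
              simp only [mem_insert, mem_union, mem_inter, mem_range, mem_sdiff]
              constructor
              · rintro (rfl | h | h)
                · exact hL
                · exact h.1
                · exact h.1
              · intro h
                by_cases hx : x = L
                · exact Or.inl hx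
                · by_cases hx2 : x < L
                  · exact Or.inr (Or.inl ⟨h, hx2⟩)
                  · exact Or.inr (Or.inr ⟨h, by omega⟩)
            rw [this]
            exact hC
        · refine hVb _ h0 hb _ (memU.2 ⟨hzI', C ∩ range L, inter_subset_right, ?_, ?_⟩)
          · congr 1
            ext x
            simp only [mem_inter, mem_range]
            constructor
            · rintro ⟨h1, h2⟩
              exact ⟨h1, by omega⟩
            · rintro ⟨h1, h2⟩
              refine ⟨h1, ?_⟩
              rcases Nat.lt_succ_iff_lt_or_eq.1 h2 with h | h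
              · exact h
              · exact absurd (h ▸ h1) hL
          · have : C ∩ range L ∪ C \ range (L + 1) = C := by
              ext x
              simp only [mem_union, mem_inter, mem_range, mem_sdiff]
              constructor
              · rintro (h | h)
                · exact h.1
                · exact h.1
              · intro h
                by_cases hx2 : x < L
                · exact Or.inl ⟨h, hx2⟩
                · refine Or.inr ⟨h, ?_⟩
                  intro h3
                  have : x = L := by omega
                  exact hL (this ▸ h)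
            rw [this]
            exact hC
      have hbL : #(C ∩ range (L + 1)) ≤ L + 1 := by
        have := card_le_card (inter_subset_right : C ∩ range (L + 1) ⊆ range (L + 1))
        rwa [card_range] at this
      set b := #(C ∩ range (L + 1)) with hbdef
      set z' := C \ range (L + 1) with hz'
      have f2 := u2 b z' hzV (Ico (L + 1 - b) L)
        (fun x hx => mem_range.2 (mem_Ico.1 hx).2) (by rw [Nat.card_Ico]; omega)
      have h3 := hG.ti.2 _ f1 _ f2
      have hsub : (range a ∪ z) ∩ insert L (Ico (L + 1 - b) L ∪ z') ⊆
          Ico (L + 1 - b) a ∪ (z ∩ z') := by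
        intro x hx
        simp only [mem_inter, mem_union, mem_range, mem_insert, mem_Ico] at hx ⊢
        have hz1 : x ∈ z → L + 1 ≤ x := fun h => (mem_Ico.1 (hzI h)).1
        have hz2 : x ∈ z' → L + 1 ≤ x := fun h => (mem_Ico.1 (hzI' h)).1
        obtain ⟨h4, h5⟩ := hx
        rcases h4 with h4 | h4
        · rcases h5 with h5 | h5 | h5
          · omega
          · left; omega
          · have := hz2 h5; omega
        · have h6 := hz1 h4
          rcases h5 with h5 | h5 | h5
          · omega
          · omega
          · exact Or.inr ⟨h4, h5⟩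
      have h6 := (card_le_card hsub).trans (card_union_le _ _)
      rw [Nat.card_Ico] at h6
      omega
  -- the new family
  have hUUU : UU L m F a ⊆ Ulev L m F a := filter_subset _ _
  have hZZU : ZZ L m F a ⊆ Ulev L m F a := (filter_subset _ _).trans (filter_subset _ _)
  set H := UU L m F a ∪ ZZ L m F a with hH
  have hHU : H ⊆ Ulev L m F a := union_subset hUUU hZZU
  have hUUH : ∀ u ∈ UU L m F a, ∀ z ∈ Ulev L m F a, (u ∩ z).Nonempty := by
    intro u hu z hz
    by_contra hne
    rw [not_nonempty_iff_eq_empty] at hne
    refine (mem_filter.1 hu).2 (u4 a z hz _ ?_ sdiff_subset)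
    intro x hx
    refine mem_sdiff.2 ⟨(memU.1 hz).1 hx, fun h => ?_⟩
    have : x ∈ u ∩ z := mem_inter.2 ⟨h, hx⟩
    rw [hne] at this
    exact absurd this (notMem_empty x)
  have hint : ∀ z ∈ H, ∀ z' ∈ H, (z ∩ z').Nonempty := by
    intro z hz z' hz'
    rcases mem_union.1 hz with h | h
    · exact hUUH z h z' (hHU hz')
    · rcases mem_union.1 hz' with h' | h'
      · rw [inter_comm]
        exact hUUH z' h' z (hHU hz)
      · exact ⟨m - 1, mem_inter.2 ⟨(mem_filter.1 h).2, (mem_filter.1 h').2⟩⟩
  set E := F.filter (fun S => #(S ∩ range (L + 1)) = a) with hEdef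
  have htr : ∀ B z : Finset ℕ, B ⊆ range (L + 1) → z ⊆ Ico (L + 1) m →
      (B ∪ z) ∩ range (L + 1) = B := by
    intro B z hB hz
    ext x
    simp only [mem_inter, mem_union, mem_range]
    constructor
    · rintro ⟨h | h, h2⟩
      · exact h
      · have := (mem_Ico.1 (hz h)).1
        omega
    · intro h
      exact ⟨Or.inl h, mem_range.1 (hB h)⟩
  have hmix : ∀ C ∈ F \ E, ∀ S ∈ lay (L + 1) a H, t ≤ #(C ∩ S) := by
    intro C hC S hSl
    obtain ⟨B, z, hB, hBa, hz, rfl⟩ := mem_lay.1 hSl
    rw [mem_sdiff] at hC
    have hCa : #(C ∩ range (L + 1)) ≠ a := fun h => hC.2 (mem_filter.2 ⟨hC.1, h⟩)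
    have h1 := key z (hHU hz) C hC.1 hCa
    have hzI := (memU.1 (hHU hz)).1
    have h2 : (C ∩ range (L + 1)) ∩ B ∪ (z ∩ (C \ range (L + 1))) ⊆ C ∩ (B ∪ z) := by
      intro x hx
      simp only [mem_union, mem_inter, mem_sdiff] at hx ⊢
      tauto
    have hd : Disjoint ((C ∩ range (L + 1)) ∩ B) (z ∩ (C \ range (L + 1))) := by
      rw [disjoint_left]
      intro x hx hx'
      simp only [mem_inter, mem_sdiff] at hx hx'
      exact hx'.2.2 hx.1.2
    have h3 := card_le_card h2
    rw [card_union_of_disjoint hd] at h3
    have h4 := card_union_add_card_inter (C ∩ range (L + 1)) B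
    have h5 := card_le_card (union_subset (inter_subset_right : C ∩ range (L + 1) ⊆ _) hB)
    rw [card_range] at h5
    omega
  have hTI : TI t m ((F \ E) ∪ lay (L + 1) a H) := by
    constructor
    · intro S hSm
      rcases mem_union.1 hSm with h | h
      · exact hG.ti.1 S (mem_sdiff.1 h).1
      · obtain ⟨B, z, hB, hBa, hz, rfl⟩ := mem_lay.1 h
        have hzI := (memU.1 (hHU hz)).1
        refine union_subset (hB.trans (range_subset_range.2 (by omega))) (hzI.trans ?_)
        intro x hx
        exact mem_range.2 (mem_Ico.1 hx).2
    · intro S hS1 T hT1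
      rcases mem_union.1 hS1 with h | h <;> rcases mem_union.1 hT1 with h' | h'
      · exact hG.ti.2 S (mem_sdiff.1 h).1 T (mem_sdiff.1 h').1
      · exact hmix S h T h'
      · rw [inter_comm]
        exact hmix T h' S h
      · obtain ⟨B, z, hB, hBa, hz, rfl⟩ := mem_lay.1 h
        obtain ⟨B', z', hB', hBa', hz', rfl⟩ := mem_lay.1 h'
        have hzI := (memU.1 (hHU hz)).1
        have hzI' := (memU.1 (hHU hz')).1
        have h2 : (B ∩ B') ∪ (z ∩ z') ⊆ (B ∪ z) ∩ (B' ∪ z') := by
          intro x hx
          simp only [mem_union, mem_inter] at hx ⊢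
          tauto
        have hd : Disjoint (B ∩ B') (z ∩ z') := by
          rw [disjoint_left]
          intro x hx hx'
          have h3 := mem_range.1 (hB (mem_inter.1 hx).1)
          have h4 := (mem_Ico.1 (hzI (mem_inter.1 hx').1)).1
          omega
        have h3 := card_le_card h2
        rw [card_union_of_disjoint hd] at h3
        have h4 := card_union_add_card_inter B B'
        have h5 := card_le_card (union_subset hB hB')
        rw [card_range] at h5
        have h6 := (hint z hz z' hz').card_pos
        omega
  have hmx := hG.mx _ hTI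
  have hdis : Disjoint (F \ E) (lay (L + 1) a H) := by
    rw [disjoint_left]
    intro S hS1 hS2
    obtain ⟨B, z, hB, hBa, hz, rfl⟩ := mem_lay.1 hS2
    have h1 := mem_sdiff.1 hS1
    exact h1.2 (mem_filter.2 ⟨h1.1, by rw [htr B z hB (memU.1 (hHU hz)).1]; exact hBa⟩)
  have hw1 : wt v ((F \ E) ∪ lay (L + 1) a H) = wt v (F \ E) + wt v (lay (L + 1) a H) := by
    simp only [wt]
    exact sum_union hdis
  have hw2 : wt v (F \ E) + wt v E = wt v F := by
    simp only [wt]
    exact sum_sdiff (filter_subset _ _)
  have hw3 : wt v (lay (L + 1) a H) = ((L + 1).choose a : ℝ) * wz v a H := by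
    refine hLAY _ _ _ _ fun z hz x hx => ?_
    exact (mem_Ico.1 ((memU.1 (hHU hz)).1 hx)).1
  -- the old level
  have hEsub : E ⊆ lay L a (Ulev L m F a) ∪ lay L (a - 1) ((Vlev L m F a).image (insert L)) := by
    intro C hC
    obtain ⟨hCF, hCa⟩ := mem_filter.1 hC
    have hCm := hG.ti.1 C hCF
    have hzI' : C \ range (L + 1) ⊆ Ico (L + 1) m := by
      intro x hx
      rw [mem_sdiff, mem_range] at hx
      exact mem_Ico.2 ⟨by omega, mem_range.1 (hCm hx.1)⟩
    by_cases hL : L ∈ C
    · refine mem_union_right _ (mem_lay.2 ⟨C ∩ range L, insert L (C \ range (L + 1)),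
        inter_subset_right, ?_, ?_, ?_⟩)
      · have : C ∩ range (L + 1) = insert L (C ∩ range L) := by
          ext x
          simp only [mem_inter, mem_range, mem_insert]
          constructor
          · rintro ⟨h1, h2⟩
            by_cases hx : x = L
            · exact Or.inl hx
            · exact Or.inr ⟨h1, by omega⟩
          · rintro (rfl | ⟨h1, h2⟩)
            · exact ⟨hL, by omega⟩
            · exact ⟨h1, by omega⟩
        rw [this, card_insert_of_notMem (by simp)] at hCa
        omega
      · refine mem_image_of_mem _ (memV.2 ⟨hzI', C ∩ range L, inter_subset_right, ?_, ?_⟩)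
        · have : C ∩ range (L + 1) = insert L (C ∩ range L) := by
            ext x
            simp only [mem_inter, mem_range, mem_insert]
            constructor
            · rintro ⟨h1, h2⟩
              by_cases hx : x = L
              · exact Or.inl hx
              · exact Or.inr ⟨h1, by omega⟩
            · rintro (rfl | ⟨h1, h2⟩)
              · exact ⟨hL, by omega⟩
              · exact ⟨h1, by omega⟩
          rw [this, card_insert_of_notMem (by simp)] at hCa
          exact hCa
        · have : insert L (C ∩ range L ∪ C \ range (L + 1)) = C := by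
            ext x
            simp only [mem_insert, mem_union, mem_inter, mem_range, mem_sdiff]
            constructor
            · rintro (rfl | h | h)
              · exact hL
              · exact h.1
              · exact h.1
            · intro h
              by_cases hx : x = L
              · exact Or.inl hx
              · by_cases hx2 : x < L
                · exact Or.inr (Or.inl ⟨h, hx2⟩)
                · exact Or.inr (Or.inr ⟨h, by omega⟩)
          rw [this]
          exact hCF
      · ext x
        simp only [mem_insert, mem_union, mem_inter, mem_range, mem_sdiff]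
        constructor
        · intro h
          by_cases hx : x = L
          · exact Or.inr (Or.inl hx)
          · by_cases hx2 : x < L
            · exact Or.inl ⟨h, hx2⟩
            · exact Or.inr (Or.inr ⟨h, by omega⟩)
        · rintro (h | rfl | h)
          · exact h.1
          · exact hL
          · exact h.1
    · have e1 : C ∩ range (L + 1) = C ∩ range L := by
        ext x
        simp only [mem_inter, mem_range]
        constructor
        · rintro ⟨h1, h2⟩
          refine ⟨h1, ?_⟩
          rcases Nat.lt_succ_iff_lt_or_eq.1 h2 with h | h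
          · exact h
          · exact absurd (h ▸ h1) hL
        · rintro ⟨h1, h2⟩
          exact ⟨h1, by omega⟩
      have e2 : C ∩ range L ∪ C \ range (L + 1) = C := by
        ext x
        simp only [mem_union, mem_inter, mem_range, mem_sdiff]
        constructor
        · rintro (h | h)
          · exact h.1
          · exact h.1
        · intro h
          by_cases hx2 : x < L
          · exact Or.inl ⟨h, hx2⟩
          · refine Or.inr ⟨h, ?_⟩
            intro h3
            have : x = L := by omega
            exact hL (this ▸ h)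
      rw [e1] at hCa
      exact mem_union_left _ (mem_lay.2 ⟨C ∩ range L, C \ range (L + 1), inter_subset_right, hCa,
        memU.2 ⟨hzI', C ∩ range L, inter_subset_right, hCa, by rw [e2]; exact hCF⟩, e2.symm⟩)
  have hw4 : wt v E ≤ (L.choose a : ℝ) * wz v a (Ulev L m F a) +
      (L.choose (a - 1) : ℝ) * wz v a (Vlev L m F a) := by
    have h1 : wt v E ≤ wt v (lay L a (Ulev L m F a) ∪
        lay L (a - 1) ((Vlev L m F a).image (insert L))) :=
      sum_le_sum_of_subset_of_nonneg hEsub fun _ _ _ => hv _
    have h2 := wt_union_le hv (lay L a (Ulev L m F a))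
      (lay L (a - 1) ((Vlev L m F a).image (insert L)))
    have h3 := hLAY L a v (Ulev L m F a) (fun z hz x hx => by
      have := (mem_Ico.1 ((memU.1 hz).1 hx)).1
      omega)
    have h4 := hLAY L (a - 1) v ((Vlev L m F a).image (insert L)) (fun z hz x hx => by
      obtain ⟨y, hy, rfl⟩ := mem_image.1 hz
      rcases mem_insert.1 hx with h | h
      · omega
      · have := (mem_Ico.1 ((memV.1 hy).1 h)).1
        omega)
    have h5 : wz v (a - 1) ((Vlev L m F a).image (insert L)) = wz v a (Vlev L m F a) := by
      simp only [wz]
      have hLn : ∀ y ∈ Vlev L m F a, L ∉ y := by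
        intro y hy h
        have := (mem_Ico.1 ((memV.1 hy).1 h)).1
        omega
      rw [sum_image]
      · refine sum_congr rfl fun y hy => ?_
        rw [card_insert_of_notMem (hLn y hy)]
        congr 1
        omega
      · intro y hy y' hy' hyy
        have := congrArg (fun s => s.erase L) hyy
        simp only [erase_insert (hLn y hy), erase_insert (hLn y' hy')] at this
        exact this
    rw [h5] at h4
    linarith
  have hUsplit : wz v a (Ulev L m F a) = wz v a (Y1 L m F a) + wz v a (UU L m F a) := by
    simp only [wz, Y1, UU]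
    exact (sum_filter_add_sum_filter_not _ _ _).symm
  have hHsplit : wz v a H = wz v a (UU L m F a) + wz v a (ZZ L m F a) := by
    simp only [wz, hH]
    refine sum_union ?_
    rw [disjoint_left]
    intro z hz hz'
    exact (mem_filter.1 hz).2 (mem_filter.1 (mem_filter.1 hz').1).2
  have hch : ((L + 1).choose a : ℝ) = (L.choose (a - 1) : ℝ) + (L.choose a : ℝ) := by
    obtain ⟨a', rfl⟩ : ∃ a', a = a' + 1 := ⟨a - 1, by omega⟩
    rw [Nat.choose_succ_succ]
    push_cast
    simp
  rw [hw1, ← hw2] at hmx
  rw [hw3, hHsplit] at hmx
  rw [hUsplit] at hw4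
  rw [hch] at hmx ⊢
  nlinarith

end MS.H76
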